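import Pool.Agent.H66.S2.Basic

/-!
# T5b, module JTE: the dual Jacobi-Trudi determinant of a column
-/

set_option autoImplicit false

namespace Pool.H66.S2

theorem JTE_sz_of_nonneg {R : Type} [Zero R] (a : ℕ → R) {n : ℤ} {m : ℕ} (h : n = m) :
    sz a n = a m := by
  subst h
  simp [sz]

theorem JTE_sz_neg {R : Type} [Zero R] (a : ℕ → R) {n : ℤ} (h : n < 0) : sz a n = 0 := by
  unfold sz
  rw [if_neg (by omega)]

/-- the Hessenberg determinant -/
theorem JTE_det (a b : ℕ → ℂ) (ha : a 0 = 1) (hb : b 0 = 1)
    (hab : ∀ n : ℕ, 1 ≤ n → ∑ i ∈ Finset.range (n + 1), (-1 : ℂ) ^ i * a i * b (n - i) = 0)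
    (k : ℕ) : JT a (fun _ : Fin k => 1) = b k := by
  cases k with
  | zero => simp [JT, hb]
  | succ n =>
    unfold JT
    set A : Matrix (Fin (n + 1)) (Fin (n + 1)) ℂ := Matrix.of fun i j : Fin (n + 1) =>
      sz a (((1 : ℕ) : ℤ) - (i : ℤ) + (j : ℤ)) with hA
    -- the coefficients of the column operation
    set cf : Fin (n + 1) → ℂ := fun j => (-1) ^ (n - (j : ℕ)) * b (n - (j : ℕ)) with hcf
    have h1 := Matrix.det_updateCol_sum A (Fin.last n) cf
    have hlast : cf (Fin.last n) = 1 := by simp [hcf, hb]
    rw [hlast, one_smul] at h1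
    rw [← h1]
    -- the new last column
    have hcol : ∀ i : Fin (n + 1), ∑ j, cf j * A i j =
        if i = 0 then (-1) ^ n * b (n + 1) else 0 := by
      intro i
      have h2 : ∑ j, cf j * A i j = ∑ j ∈ Finset.range (n + 1),
          ((-1) ^ (n - j) * b (n - j)) * sz a (((1 : ℕ) : ℤ) - (i : ℤ) + (j : ℤ)) := by
        rw [Finset.sum_range]
        rfl
      rw [h2]
      split_ifs with hi
      · subst hi
        have h3 := hab (n + 1) (by omega)
        rw [Finset.sum_range_succ'] at h3
        simp only [pow_zero, one_mul, ha, Nat.sub_zero] at h3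
        have h4 : ∀ j ∈ Finset.range (n + 1),
            ((-1 : ℂ) ^ (n - j) * b (n - j)) * sz a (((1 : ℕ) : ℤ) - (((0 : Fin (n + 1)) : ℕ) : ℤ) +
              (j : ℤ)) = (-1) ^ (n + 1) * ((-1) ^ (j + 1) * a (j + 1) * b (n + 1 - (j + 1))) := by
          intro j hj
          rw [Finset.mem_range] at hj
          rw [JTE_sz_of_nonneg a (m := j + 1) (by push_cast; simp; ring)]
          have e1 : n + 1 - (j + 1) = n - j := by omega
          have e2 : (-1 : ℂ) ^ (n - j) = (-1) ^ (n + 1) * (-1) ^ (j + 1) := by
            rw [← pow_add]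
            have e3 : n + 1 + (j + 1) = (n - j) + 2 * (j + 1) := by omega
            rw [e3, pow_add, pow_mul]
            simp
          rw [e1, e2]
          ring
        rw [Finset.sum_congr rfl h4, ← Finset.mul_sum]
        have h5 : ∑ i ∈ Finset.range (n + 1), (-1 : ℂ) ^ (i + 1) * a (i + 1) *
            b (n + 1 - (i + 1)) = -b (n + 1) := by
          linear_combination h3
        rw [h5, pow_succ]
        ring
      · have hi1 : 1 ≤ (i : ℕ) := by
          rcases Nat.eq_zero_or_pos (i : ℕ) with h | h
          · exact absurd (Fin.ext h) hi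
          · exact h
        have hin : (i : ℕ) < n + 1 := i.2
        obtain ⟨i', hi'⟩ : ∃ i' : ℕ, (i : ℕ) = i' + 1 := ⟨(i : ℕ) - 1, by omega⟩
        have h6 : Finset.range (n + 1) = Finset.range (i' + (n - i' + 1)) := by
          congr 1
          omega
        rw [h6, Finset.sum_range_add]
        have h7 : ∑ x ∈ Finset.range i', ((-1 : ℂ) ^ (n - x) * b (n - x)) *
            sz a (((1 : ℕ) : ℤ) - (i : ℤ) + (x : ℤ)) = 0 := by
          refine Finset.sum_eq_zero fun x hx => ?_
          rw [Finset.mem_range] at hx
          rw [JTE_sz_neg a (by push_cast; omega), mul_zero]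
        rw [h7, zero_add]
        have h8 := hab (n - i') (by omega)
        have h9 : ∀ x ∈ Finset.range (n - i' + 1),
            ((-1 : ℂ) ^ (n - (i' + x)) * b (n - (i' + x))) *
              sz a (((1 : ℕ) : ℤ) - (i : ℤ) + ((i' + x : ℕ) : ℤ)) =
            (-1) ^ (n - i') * ((-1) ^ x * a x * b (n - i' - x)) := by
          intro x hx
          rw [Finset.mem_range] at hx
          rw [JTE_sz_of_nonneg a (m := x) (by push_cast; omega)]
          have e1 : n - (i' + x) = n - i' - x := by omega
          have e2 : (-1 : ℂ) ^ (n - i' - x) = (-1) ^ (n - i') * (-1) ^ x := by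
            rw [← pow_add]
            have e3 : n - i' + x = (n - i' - x) + 2 * x := by omega
            rw [e3, pow_add, pow_mul]
            simp
          rw [e1, e2]
          ring
        rw [Finset.sum_congr rfl h9, ← Finset.mul_sum, h8, mul_zero]
    have hA' : A.updateCol (Fin.last n) (fun i => ∑ j, cf j * A i j) =
        A.updateCol (Fin.last n) (fun i => if i = 0 then (-1) ^ n * b (n + 1) else 0) := by
      congr 1
      funext i
      exact hcol i
    rw [show (fun k => ∑ i, cf i • A k i) = (fun i => ∑ j, cf j * A i j) from rfl, hA']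
    rw [Matrix.det_succ_column _ (Fin.last n), Finset.sum_eq_single 0]
    · rw [Matrix.updateCol_self, if_pos rfl]
      have h10 : ((A.updateCol (Fin.last n) (fun i => if i = 0 then (-1) ^ n * b (n + 1) else 0)
          ).submatrix (Fin.succAbove 0) (Fin.succAbove (Fin.last n))).det = 1 := by
        rw [Matrix.det_of_isUpperTriangular]
        · refine Finset.prod_eq_one fun i _ => ?_
          rw [Matrix.submatrix_apply, Fin.succAbove_last, Matrix.updateCol_ne
            (Fin.castSucc_lt_last i).ne, hA, Matrix.of_apply]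
          rw [JTE_sz_of_nonneg a (m := 0) (by simp), ha]
        · intro i j hij
          rw [Matrix.submatrix_apply, Fin.succAbove_last, Matrix.updateCol_ne
            (Fin.castSucc_lt_last j).ne, hA, Matrix.of_apply]
          have hij' : (j : ℕ) < (i : ℕ) := hij
          rw [JTE_sz_neg a (by simp; omega)]
      rw [h10, mul_one]
      simp only [Fin.val_zero, Fin.val_last, zero_add]
      rw [← mul_assoc, ← pow_add, ← two_mul, pow_mul]
      simp
    · intro i _ hi
      rw [Matrix.updateCol_self, if_neg hi, mul_zero, zero_mul]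
    · intro h
      exact absurd (Finset.mem_univ _) h

theorem s_JTE (hEHR : S_EHR) (hHSB : S_HSB) : S_JTE := by
  intro k X
  exact JTE_det (fun j => X.esymm j) (fun j => hs j X) (by simp [Multiset.esymm])
    (hHSB.1 X) (fun n hn => hEHR n X hn) k

end Pool.H66.S2
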