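import Pool.Agent.H66.S2.Basic

/-!
# T5b, module WIP: Weyl's integration formula
-/

set_option autoImplicit false

namespace Pool.H66.S2

open Equiv.Perm

/-- the exponents `lam_j + m - 1 - j` -/
def WIP_al {m : ℕ} (lam : Fin m → ℕ) : Fin m → ℤ := fun j => ((lam j + (m - 1 - (j : ℕ)) : ℕ) : ℤ)

theorem WIP_al_anti {m : ℕ} {lam : Fin m → ℕ} (h : Antitone lam) : StrictAnti (WIP_al lam) := by
  intro i j hij
  have h1 := h hij.le
  have h2 : (i : ℕ) < (j : ℕ) := hij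
  have h3 : (j : ℕ) < m := j.2
  unfold WIP_al
  have h4 : lam j + (m - 1 - (j : ℕ)) < lam i + (m - 1 - (i : ℕ)) := by omega
  exact_mod_cast h4

theorem WIP_al_inj {m : ℕ} {nu mu : Fin m → ℕ} (h : WIP_al nu = WIP_al mu) : nu = mu := by
  funext j
  have h1 := congrFun h j
  unfold WIP_al at h1
  have h2 : nu j + (m - 1 - (j : ℕ)) = mu j + (m - 1 - (j : ℕ)) := by exact_mod_cast h1
  omega

/-- the alternating sums -/
noncomputable def WIP_D {m : ℕ} (α : Fin m → ℤ) (c : Fin m → ℂ) : ℂ :=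
  ∑ σ : Equiv.Perm (Fin m), ((sign σ : ℤ) : ℂ) * mon c (α ∘ σ.symm)

theorem WIP_det {m : ℕ} (lam : Fin m → ℕ) (c : Fin m → ℂ) :
    (Matrix.of fun i j : Fin m => c i ^ (lam j + (m - 1 - (j : ℕ)))).det =
      WIP_D (WIP_al lam) c := by
  rw [Matrix.det_apply']
  unfold WIP_D
  refine Finset.sum_congr rfl fun σ _ => ?_
  congr 1
  rw [← mon_comp]
  unfold mon WIP_al
  refine Finset.prod_congr rfl fun i _ => ?_
  rw [zpow_natCast]
  rfl

theorem WIP_inv {m : ℕ} (c : Fin m → ℂ) (a : Fin m → ℤ) : mon (fun j => (c j)⁻¹) a = mon c (-a) := by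
  unfold mon
  refine Finset.prod_congr rfl fun i _ => ?_
  rw [Pi.neg_apply, zpow_neg, inv_zpow]

/-- the product of `φ` with two alternating sums -/
noncomputable def WIP_P {m : ℕ} (φ : (Fin m → ℤ) →₀ ℤ) (α β : Fin m → ℤ) : (Fin m → ℤ) →₀ ℤ :=
  ∑ σ : Equiv.Perm (Fin m), ∑ τ : Equiv.Perm (Fin m), ((sign σ : ℤ) * (sign τ : ℤ)) •
    Finsupp.mapDomain (fun a => a + (α ∘ σ.symm - β ∘ τ.symm)) φ

theorem WIP_ev_smul {m : ℕ} (k : ℤ) (φ : (Fin m → ℤ) →₀ ℤ) (c : Fin m → ℂ) :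
    ev (k • φ) c = k * ev φ c := by
  unfold ev
  rw [Finsupp.sum_smul_index' (by simp), Finsupp.mul_sum]
  refine Finsupp.sum_congr fun a _ => ?_
  simp only [smul_eq_mul]
  push_cast
  ring

theorem WIP_ev_shift {m : ℕ} (φ : (Fin m → ℤ) →₀ ℤ) (b : Fin m → ℤ) (c : Fin m → ℂ)
    (hc : ∀ j, c j ≠ 0) : ev (Finsupp.mapDomain (fun a => a + b) φ) c = ev φ c * mon c b := by
  unfold ev
  rw [Finsupp.sum_mapDomain_index (by simp) (by intro b m1 m2; push_cast; ring), Finsupp.sum_mul]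
  refine Finsupp.sum_congr fun a _ => ?_
  rw [mon_add c hc]
  ring

theorem WIP_ev_P {m : ℕ} (φ : (Fin m → ℤ) →₀ ℤ) (α β : Fin m → ℤ) (c : Fin m → ℂ)
    (hc : ∀ j, c j ≠ 0) :
    ev (WIP_P φ α β) c = ev φ c * (WIP_D α c * WIP_D β (fun j => (c j)⁻¹)) := by
  unfold WIP_P WIP_D
  rw [ev_sum, Finset.sum_mul_sum, Finset.mul_sum]
  refine Finset.sum_congr rfl fun σ _ => ?_
  rw [ev_sum, Finset.mul_sum]
  refine Finset.sum_congr rfl fun τ _ => ?_
  rw [WIP_ev_smul, WIP_ev_shift _ _ _ hc, WIP_inv, sub_eq_add_neg, mon_add c hc]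
  push_cast
  ring

theorem WIP_P_zero {m : ℕ} (φ : (Fin m → ℤ) →₀ ℤ) (α β : Fin m → ℤ) :
    WIP_P φ α β 0 = ∑ σ : Equiv.Perm (Fin m), ∑ τ : Equiv.Perm (Fin m),
      ((sign σ : ℤ) * (sign τ : ℤ)) * φ (-(α ∘ σ.symm - β ∘ τ.symm)) := by
  unfold WIP_P
  rw [Finsupp.finsetSum_apply]
  refine Finset.sum_congr rfl fun σ _ => ?_
  rw [Finsupp.finsetSum_apply]
  refine Finset.sum_congr rfl fun τ _ => ?_
  rw [Finsupp.smul_apply, smul_eq_mul]
  congr 1
  have h := Finsupp.mapDomain_apply (f := fun a : Fin m → ℤ => a + (α ∘ σ.symm - β ∘ τ.symm))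
    (add_left_injective _) φ (-(α ∘ σ.symm - β ∘ τ.symm))
  rw [← h]
  congr 1
  exact (neg_add_cancel _).symm

/-- the functional -/
noncomputable def WIP_w (m : ℕ) : ((Fin m → ℤ) →₀ ℤ) →+ ℤ where
  toFun φ := WIP_P φ (WIP_al 0) (WIP_al 0) 0
  map_zero' := by simp [WIP_P_zero]
  map_add' φ ψ := by
    simp only [WIP_P_zero, ← Finset.sum_add_distrib, Finsupp.add_apply, mul_add]

theorem WIP_key {m : ℕ} {α β : Fin m → ℤ} (hα : StrictAnti α) (hβ : StrictAnti β)
    (σ τ : Equiv.Perm (Fin m)) (h : α ∘ σ.symm = β ∘ τ.symm) : α = β ∧ σ = τ := by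
  have h1 : ∀ i, α (σ.symm (τ i)) = β i := by
    intro i
    have := congrFun h (τ i)
    simpa using this
  have h2 : StrictMono fun i => σ.symm (τ i) := by
    intro i j hij
    have h3 := hβ hij
    rw [← h1 i, ← h1 j] at h3
    exact hα.lt_iff_gt.1 h3
  have h4 : (fun i => σ.symm (τ i)) = id := by
    refine (h2.range_inj strictMono_id).1 ?_
    rw [Set.range_id, Set.range_eq_univ]
    exact (τ.trans σ.symm).surjective
  constructor
  · funext i
    rw [← h1 i]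
    have := congrFun h4 i
    simp only [id] at this
    rw [this]
  · ext i
    have := congrFun h4 i
    simp only [id] at this
    rw [Equiv.symm_apply_eq] at this
    rw [this]

theorem s_WIP (hJTB : S_JTB) (hEVI : S_EVI) : S_WIP := by
  intro m
  refine ⟨WIP_w m, ?_⟩
  intro nu mu hnu hmu φ hφ
  -- the identity of alternating sums
  have hJ : ∀ (lam : Fin m → ℕ) (c : Fin m → ℂ), WIP_D (WIP_al lam) c =
      schur lam (Finset.univ.val.map c) * WIP_D (WIP_al 0) c := by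
    intro lam c
    have h1 := hJTB m c lam
    rw [WIP_det] at h1
    rw [h1]
    congr 1
    rw [← WIP_det]
    congr 1
    ext i j
    simp
  have h2 : ∀ c : Fin m → ℂ, (∀ j, c j ≠ 0) →
      ev (WIP_P φ (WIP_al 0) (WIP_al 0) -
        WIP_P (Finsupp.single 0 1) (WIP_al nu) (WIP_al mu)) c = 0 := by
    intro c hc
    rw [sub_eq_add_neg, ev_add, ← neg_one_zsmul, WIP_ev_smul, WIP_ev_P _ _ _ _ hc,
      WIP_ev_P _ _ _ _ hc, hφ c hc, ev_single, mon_zero, hJ nu c, hJ mu fun j => (c j)⁻¹]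
    push_cast
    ring
  have h3 := hEVI m _ h2
  have h4 : WIP_w m φ = WIP_P (Finsupp.single 0 1) (WIP_al nu) (WIP_al mu) 0 := by
    have h5 := DFunLike.congr_fun h3 0
    rw [Finsupp.sub_apply, Finsupp.zero_apply, sub_eq_zero] at h5
    exact h5
  rw [h4, WIP_P_zero]
  have hα := WIP_al_anti hnu
  have hβ := WIP_al_anti hmu
  have h5 : ∀ σ τ : Equiv.Perm (Fin m), (Finsupp.single (0 : Fin m → ℤ) (1 : ℤ))
      (-(WIP_al nu ∘ σ.symm - WIP_al mu ∘ τ.symm)) =
        if nu = mu ∧ σ = τ then 1 else 0 := by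
    intro σ τ
    rw [Finsupp.single_apply]
    refine if_congr ?_ rfl rfl
    constructor
    · intro h
      have h6 : WIP_al nu ∘ σ.symm = WIP_al mu ∘ τ.symm := by
        rw [← sub_eq_zero, ← neg_eq_zero, ← h]
      obtain ⟨h7, h8⟩ := WIP_key hα hβ σ τ h6
      exact ⟨WIP_al_inj h7, h8⟩
    · rintro ⟨h, h'⟩
      subst h h'
      simp
  simp only [h5]
  constructor
  · intro h
    have h6 : ∀ σ : Equiv.Perm (Fin m), ∑ τ : Equiv.Perm (Fin m),
        ((sign σ : ℤ) * (sign τ : ℤ)) * (if nu = mu ∧ σ = τ then 1 else 0) = 1 := by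
      intro σ
      rw [Finset.sum_eq_single σ]
      · rw [if_pos ⟨h, rfl⟩, mul_one]
        rcases Int.units_eq_one_or (sign σ) with h7 | h7 <;> simp [h7]
      · intro τ _ hτ
        rw [if_neg (fun h8 => hτ h8.2.symm), mul_zero]
      · intro h8
        exact absurd (Finset.mem_univ _) h8
    rw [Finset.sum_congr rfl fun σ _ => h6 σ]
    simp [Fintype.card_perm]
  · intro h
    refine Finset.sum_eq_zero fun σ _ => Finset.sum_eq_zero fun τ _ => ?_
    rw [if_neg (fun h8 => h h8.1), mul_zero]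

end Pool.H66.S2
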